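import Mathlib

set_option autoImplicit false

open Finset

namespace Pool.Agent.Results.MP_b875bc_co.EqualDegreePath

/-- No two distinct vertices of equal degree are joined by a path of length three. -/
def NoPath {V : Type*} [Fintype V] (G : SimpleGraph V) [DecidableRel G.Adj] : Prop :=
  ∀ x₁ y₁ y₂ x₂ : V, x₁ ≠ x₂ → y₁ ≠ x₂ → x₁ ≠ y₂ → G.degree x₁ = G.degree x₂ →
    G.Adj x₁ y₁ → G.Adj y₁ y₂ → G.Adj y₂ x₂ → False

variable {V : Type*} [Fintype V] [DecidableEq V] {G : SimpleGraph V} [DecidableRel G.Adj]

lemma pair_nbr (h : NoPath G) {y a b c : V} (hab : a ≠ b) (hd : G.degree a = G.degree b)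
    (hya : G.Adj y a) (hyb : G.Adj y b) (hyc : G.Adj y c) (hbc : G.Adj b c) : c = a := by
  by_contra hca
  exact h a y c b hab hyb.ne (fun e => hca e.symm) hd hya.symm hyc hbc.symm

lemma pair_le (h : NoPath G) {y a b : V} (hab : a ≠ b) (hd : G.degree a = G.degree b)
    (hya : G.Adj y a) (hyb : G.Adj y b) :
    G.degree b + G.degree y ≤ Fintype.card V + 1 ∧
    (G.degree b + G.degree y = Fintype.card V + 1 →
      G.Adj a b ∧ ∀ w, ¬ G.Adj y w → G.Adj b w) := by
  classical
  have hsub : G.neighborFinset b ⊆ insert a (G.neighborFinset y)ᶜ := by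
    intro c hc
    rw [SimpleGraph.mem_neighborFinset] at hc
    rw [mem_insert, mem_compl, SimpleGraph.mem_neighborFinset]
    by_cases hyc : G.Adj y c
    · exact Or.inl (pair_nbr h hab hd hya hyb hyc hc)
    · exact Or.inr hyc
  have hcard : (insert a (G.neighborFinset y)ᶜ).card = (Fintype.card V - G.degree y) + 1 := by
    rw [card_insert_of_notMem, card_compl, SimpleGraph.card_neighborFinset_eq_degree]
    simp [hya]
  have hylt : G.degree y ≤ Fintype.card V := by
    rw [← SimpleGraph.card_neighborFinset_eq_degree]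
    exact card_le_univ _
  have h1 := card_le_card hsub
  rw [SimpleGraph.card_neighborFinset_eq_degree, hcard] at h1
  refine ⟨by omega, fun heq => ?_⟩
  have he : G.neighborFinset b = insert a (G.neighborFinset y)ᶜ := by
    apply eq_of_subset_of_card_le hsub
    rw [SimpleGraph.card_neighborFinset_eq_degree, hcard]; omega
  constructor
  · have : a ∈ G.neighborFinset b := by rw [he]; exact mem_insert_self _ _
    rw [SimpleGraph.mem_neighborFinset] at this
    exact this.symm
  · intro w hw
    have : w ∈ G.neighborFinset b := by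
      rw [he]; apply mem_insert_of_mem; rw [mem_compl, SimpleGraph.mem_neighborFinset]; exact hw
    rwa [SimpleGraph.mem_neighborFinset] at this

lemma lower_le (h : NoPath G) {D : ℕ} (hD : Fintype.card V + 1 ≤ 2 * D) (y : V) :
    #{x | G.Adj y x ∧ D ≤ G.degree y ∧ (D ≤ G.degree x ∧ G.degree x < G.degree y)}
      ≤ G.degree y - D := by
  rw [← Nat.card_Ico]
  apply card_le_card_of_injOn (fun x => G.degree x)
  · intro x hx
    simp only [coe_filter, mem_univ, true_and, Set.mem_ofPred_eq] at hx
    simp only [coe_Ico, Set.mem_Ico]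
    exact hx.2.2
  · intro x hx x' hx' he
    simp only [coe_filter, mem_univ, true_and, Set.mem_ofPred_eq] at hx hx' he
    by_contra hne
    have := (pair_le h hne he hx.1 hx'.1).1
    omega

lemma same_unique (h : NoPath G) {y x x' : V} (hN : 4 ≤ Fintype.card V)
    (hy : Fintype.card V + 1 ≤ 2 * G.degree y) (hx : G.Adj y x) (hx' : G.Adj y x')
    (hd : G.degree x = G.degree y) (hd' : G.degree x' = G.degree y) : x = x' := by
  by_contra hne
  have h1 := pair_le h hne (hd.trans hd'.symm) hx hx'
  have h2 := pair_le h (Ne.symm hne) (hd'.trans hd.symm) hx' hx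
  have e1 : G.degree x' + G.degree y = Fintype.card V + 1 := by have := h1.1; omega
  have e2 : G.degree x + G.degree y = Fintype.card V + 1 := by omega
  obtain ⟨hxx', hw'⟩ := h1.2 e1
  obtain ⟨-, hw⟩ := h2.2 e2
  have hex : ∃ w, w ≠ y ∧ ¬ G.Adj y w := by
    by_contra hcon
    push Not at hcon
    have : univ.erase y ⊆ G.neighborFinset y := by
      intro w hw
      rw [SimpleGraph.mem_neighborFinset]
      exact hcon w (ne_of_mem_erase hw)
    have := card_le_card this
    rw [card_erase_of_mem (mem_univ _), card_univ, SimpleGraph.card_neighborFinset_eq_degree] at this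
    omega
  obtain ⟨w, hwy, hnw⟩ := hex
  exact h y x w x' hx'.ne hne (Ne.symm hwy) hd'.symm hx (hw w hnw) (hw' w hnw).symm

lemma same_le (h : NoPath G) {D : ℕ} (hN : 4 ≤ Fintype.card V)
    (hD : Fintype.card V + 1 ≤ 2 * D) (y : V) :
    #{x | G.Adj y x ∧ D ≤ G.degree y ∧ G.degree x = G.degree y}
      ≤ if D ≤ G.degree y then 1 else 0 := by
  by_cases hy : D ≤ G.degree y
  · rw [if_pos hy, card_le_one]
    intro x hx x' hx'
    simp only [mem_filter, mem_univ, true_and] at hx hx'
    exact same_unique h hN (by omega) hx.1 hx'.1 hx.2.2 hx'.2.2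
  · rw [if_neg hy, Nat.le_zero, card_eq_zero, filter_eq_empty_iff]
    intro x _ hx
    exact hy hx.2.1

/-- Exceptional vertices at level `D`. -/
def Exc (G : SimpleGraph V) [DecidableRel G.Adj] (D : ℕ) (y : V) : Prop :=
  ∃ a b, a ≠ b ∧ G.Adj y a ∧ G.Adj y b ∧ G.degree a + D = Fintype.card V + 1 ∧
    G.degree b + D = Fintype.card V + 1 ∧ G.degree y = D

open Classical in
lemma mid_le (h : NoPath G) {D : ℕ} (hD : Fintype.card V + 1 ≤ 2 * D) (y : V) :
    #{x | G.Adj y x ∧ D ≤ G.degree y ∧
        (Fintype.card V + 1 ≤ G.degree x + D ∧ G.degree x < D)}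
      ≤ (if D ≤ G.degree y then 2 * D - Fintype.card V - 1 else 0) +
        (if Exc G D y then 1 else 0) := by
  have hlt := G.degree_lt_card_verts y
  by_cases hy : D ≤ G.degree y
  · rw [if_pos hy]
    have hc : #(Ico (Fintype.card V + 1 - D) D) = 2 * D - Fintype.card V - 1 := by
      rw [Nat.card_Ico]; omega
    by_cases hE : Exc G D y
    · rw [if_pos hE, ← hc]
      obtain ⟨a, b, hab, hya, hyb, ha, hb, hyD⟩ := hE
      set S : Finset V := {x | G.Adj y x ∧ D ≤ G.degree y ∧
        (Fintype.card V + 1 ≤ G.degree x + D ∧ G.degree x < D)} with hS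
      have h1 : #S - 1 ≤ #(S.erase b) := pred_card_le_card_erase
      have h2 : #(S.erase b) ≤ #(Ico (Fintype.card V + 1 - D) D) := by
        apply card_le_card_of_injOn (fun x => G.degree x)
        · intro x hx
          simp only [coe_erase, hS, coe_filter, mem_univ, true_and, Set.mem_sdiff,
            Set.mem_ofPred_eq] at hx
          simp only [coe_Ico, Set.mem_Ico]
          omega
        · intro x hx x' hx' he
          simp only [coe_erase, hS, coe_filter, mem_univ, true_and, Set.mem_sdiff,
            Set.mem_ofPred_eq, Set.mem_singleton_iff] at hx hx' he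
          obtain ⟨⟨hyx, -, hx1, hx2⟩, hxb⟩ := hx
          obtain ⟨⟨hyx', -, hx1', hx2'⟩, hxb'⟩ := hx'
          by_contra hne
          have h3 := (pair_le h hne he hyx hyx').1
          have hxD : G.degree x = G.degree b := by omega
          have h4 := (pair_le h hxb hxD hyx hyb).2 (by omega)
          exact hne (pair_nbr h hxb' (by omega) hyx' hyb hyx h4.1.symm)
      omega
    · rw [if_neg hE, ← hc, add_zero]
      apply card_le_card_of_injOn (fun x => G.degree x)
      · intro x hx
        simp only [coe_filter, mem_univ, true_and, Set.mem_ofPred_eq] at hx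
        simp only [coe_Ico, Set.mem_Ico]
        omega
      · intro x hx x' hx' he
        simp only [coe_filter, mem_univ, true_and, Set.mem_ofPred_eq] at hx hx' he
        by_contra hne
        have h3 := (pair_le h hne he hx.1 hx'.1).1
        exact hE ⟨x, x', hne, hx.1, hx'.1, by omega, by omega, by omega⟩
  · have : #{x | G.Adj y x ∧ D ≤ G.degree y ∧
        (Fintype.card V + 1 ≤ G.degree x + D ∧ G.degree x < D)} = 0 := by
      rw [card_eq_zero, filter_eq_empty_iff]
      intro x _ hx
      exact hy hx.2.1
    rw [this]; exact Nat.zero_le _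

lemma exc_unique (h : NoPath G) {D : ℕ} (hN : 4 ≤ Fintype.card V)
    (hD : Fintype.card V + 1 ≤ 2 * D) {y y' : V} (hy : Exc G D y) (hy' : Exc G D y') :
    y = y' := by
  obtain ⟨a, b, hab, hya, hyb, ha, hb, hyD⟩ := hy
  obtain ⟨a', b', hab', hya', hyb', ha', hb', hyD'⟩ := hy'
  by_contra hne
  have hD' : Fintype.card V + 1 < 2 * D := by
    by_contra hcon
    exact hab (same_unique h hN (by omega) hya hyb (by omega) (by omega))
  obtain ⟨hadj, hwb⟩ := (pair_le h hab (by omega) hya hyb).2 (by omega)
  obtain ⟨-, hwa⟩ := (pair_le h hab.symm (by omega) hyb hya).2 (by omega)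
  obtain ⟨hadj', -⟩ := (pair_le h hab' (by omega) hya' hyb').2 (by omega)
  by_cases hyy : G.Adj y y'
  · -- a common argument for `a'` and `b'`
    have key : ∀ c, G.Adj y' c → G.degree c + D = Fintype.card V + 1 → ¬ G.Adj y c := by
      intro c hc hcd hyc
      have hc' : c = a ∨ c = b := by
        by_contra hcon
        push Not at hcon
        exact hcon.1 (pair_nbr h hcon.2 (by omega) hyc hyb hya hadj.symm).symm
      rcases hc' with rfl | rfl
      · have := pair_nbr h hab.symm (by omega) hyb hya hyy hc.symm
        subst this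
        omega
      · have := pair_nbr h hab (by omega) hya hyb hyy hc.symm
        subst this
        omega
    have k1 := key a' hya' ha'
    have k2 := key b' hyb' hb'
    refine h a a' b' b hab ?_ ?_ (by omega) (hwa a' k1) hadj' (hwb b' k2).symm
    · rintro rfl; exact k1 hyb
    · rintro rfl; exact k2 hya
  · have h1 := hwa y' hyy
    have h2 := hwb y' hyy
    exact h y a b y' hne h1.ne hyb.ne (by omega) hya hadj h2

/-- number of vertices of degree at least `j` -/
def U (G : SimpleGraph V) [DecidableRel G.Adj] (j : ℕ) : ℕ := #{x | j ≤ G.degree x}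

/-- number of vertices of degree at most `N - j` -/
def Lo (G : SimpleGraph V) [DecidableRel G.Adj] (j : ℕ) : ℕ :=
  #{x | G.degree x + j ≤ Fintype.card V}

omit [DecidableEq V] in
lemma sum_sub_U (D : ℕ) :
    ∑ y : V, (G.degree y - D) = ∑ j ∈ Ioc D (Fintype.card V), U G j := by
  have h1 : ∀ y : V, G.degree y - D = #{j ∈ Ioc D (Fintype.card V) | j ≤ G.degree y} := by
    intro y
    have hlt := G.degree_lt_card_verts y
    have : {j ∈ Ioc D (Fintype.card V) | j ≤ G.degree y} = Ioc D (G.degree y) := by
      ext j; simp only [mem_filter, mem_Ioc]; omega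
    rw [this, Nat.card_Ioc]
  rw [sum_congr rfl (fun y _ => h1 y)]
  simp only [card_filter, U]
  rw [sum_comm]

omit [DecidableEq V] in
lemma sum_sub_Lo (D : ℕ) :
    ∑ y : V, (Fintype.card V - D - G.degree y) = ∑ j ∈ Ioc D (Fintype.card V), Lo G j := by
  have h1 : ∀ y : V, Fintype.card V - D - G.degree y =
      #{j ∈ Ioc D (Fintype.card V) | G.degree y + j ≤ Fintype.card V} := by
    intro y
    have hlt := G.degree_lt_card_verts y
    have : {j ∈ Ioc D (Fintype.card V) | G.degree y + j ≤ Fintype.card V}
        = Ioc D (Fintype.card V - G.degree y) := by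
      ext j; simp only [mem_filter, mem_Ioc]; omega
    rw [this, Nat.card_Ioc]; omega
  rw [sum_congr rfl (fun y _ => h1 y)]
  simp only [card_filter, Lo]
  rw [sum_comm]

omit [DecidableEq V] in
lemma dc (P : V → V → Prop) [∀ x y, Decidable (P x y)] :
    ∑ y, #{x | P y x} = ∑ x, #{y | P y x} := by
  simp only [card_filter]
  exact sum_comm

open Classical in
lemma count (h : NoPath G) {D : ℕ} (hN : 4 ≤ Fintype.card V)
    (hD : Fintype.card V + 1 ≤ 2 * D) (hDN : D ≤ Fintype.card V)
    (hIH : ∀ j, D < j → U G j ≤ Lo G j) :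
    (Fintype.card V - D) * U G D ≤ (Fintype.card V - D) * Lo G D + #{y | Exc G D y} := by
  set N := Fintype.card V with hNdef
  -- the sums
  have hX : ∑ y : V, (G.degree y - D) ≤ ∑ y : V, (N - D - G.degree y) := by
    rw [sum_sub_U, sum_sub_Lo]
    apply sum_le_sum
    intro j hj
    exact hIH j (mem_Ioc.1 hj).1
  set X := ∑ y : V, (G.degree y - D) with hXdef
  set X' := ∑ y : V, (N - D - G.degree y) with hX'def
  have hpart : ∀ y : V, (if D ≤ G.degree y then G.degree y else 0) =
      #{x | G.Adj y x ∧ D ≤ G.degree y ∧ (G.degree x + D ≤ N)} +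
      #{x | G.Adj y x ∧ D ≤ G.degree y ∧ (N + 1 ≤ G.degree x + D ∧ G.degree x < D)} +
      #{x | G.Adj y x ∧ D ≤ G.degree y ∧ (D ≤ G.degree x ∧ G.degree x < G.degree y)} +
      #{x | G.Adj y x ∧ D ≤ G.degree y ∧ G.degree x = G.degree y} +
      #{x | G.Adj y x ∧ D ≤ G.degree y ∧ G.degree y < G.degree x} := by
    intro y
    by_cases hy : D ≤ G.degree y
    · rw [if_pos hy]
      have : G.degree y = #{x | G.Adj y x} := by
        rw [← SimpleGraph.card_neighborFinset_eq_degree]
        congr 1
        ext x; simp
      conv_lhs => rw [this]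
      simp only [card_filter, ← sum_add_distrib]
      apply sum_congr rfl
      intro x _
      by_cases hA : G.Adj y x
      · simp only [hA, hy, true_and]
        split_ifs <;> omega
      · simp [hA]
    · simp [hy]
  have hsum := sum_congr (rfl : (univ : Finset V) = univ) (fun y _ => hpart y)
  simp only [sum_add_distrib] at hsum
  -- total
  have htot : ∑ y : V, (if D ≤ G.degree y then G.degree y else 0) = D * U G D + X := by
    rw [hXdef, U, card_filter, mul_sum, ← sum_add_distrib]
    apply sum_congr rfl
    intro y _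
    split_ifs <;> omega
  -- first part
  have h1 : ∑ y : V, #{x | G.Adj y x ∧ D ≤ G.degree y ∧ (G.degree x + D ≤ N)} ≤
      ∑ x : V, (if G.degree x + D ≤ N then G.degree x else 0) := by
    rw [dc (fun y x => G.Adj y x ∧ D ≤ G.degree y ∧ (G.degree x + D ≤ N))]
    apply sum_le_sum
    intro x _
    split_ifs with hx
    · rw [← SimpleGraph.card_neighborFinset_eq_degree]
      apply card_le_card
      intro y hy
      simp only [mem_filter, mem_univ, true_and] at hy
      rw [SimpleGraph.mem_neighborFinset]
      exact hy.1.symm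
    · rw [Nat.le_zero, card_eq_zero, filter_eq_empty_iff]
      intro y _ hy
      exact hx hy.2.2
  have h1' : ∑ x : V, (if G.degree x + D ≤ N then G.degree x else 0) + X' =
      (N - D) * Lo G D := by
    rw [hX'def, Lo, card_filter, mul_sum, ← sum_add_distrib]
    apply sum_congr rfl
    intro y _
    split_ifs <;> omega
  -- second part
  have h2 : ∑ y : V, #{x | G.Adj y x ∧ D ≤ G.degree y ∧
      (N + 1 ≤ G.degree x + D ∧ G.degree x < D)} ≤
      (2 * D - N - 1) * U G D + #{y | Exc G D y} := by
    refine (sum_le_sum (fun y _ => mid_le h hD y)).trans ?_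
    rw [sum_add_distrib, U, card_filter, card_filter, mul_sum]
    apply le_of_eq
    congr 1
    apply sum_congr rfl
    intro y _
    split_ifs <;> omega
  -- third part
  have h3 : ∑ y : V, #{x | G.Adj y x ∧ D ≤ G.degree y ∧
      (D ≤ G.degree x ∧ G.degree x < G.degree y)} ≤ X :=
    sum_le_sum (fun y _ => lower_le h hD y)
  -- fourth part
  have h4 : ∑ y : V, #{x | G.Adj y x ∧ D ≤ G.degree y ∧ G.degree x = G.degree y} ≤ U G D := by
    rw [U, card_filter]
    exact sum_le_sum (fun y _ => same_le h hN hD y)
  -- fifth part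
  have h5 : ∑ y : V, #{x | G.Adj y x ∧ D ≤ G.degree y ∧ G.degree y < G.degree x} ≤ X := by
    rw [dc (fun y x => G.Adj y x ∧ D ≤ G.degree y ∧ G.degree y < G.degree x)]
    refine le_trans (le_of_eq ?_) h3
    apply sum_congr rfl
    intro y _
    congr 1
    ext x
    simp only [mem_filter, mem_univ, true_and, G.adj_comm x y]
    constructor
    · rintro ⟨ha, hb, hc⟩; exact ⟨ha, by omega, hb, hc⟩
    · rintro ⟨ha, hb, hc, hd⟩; exact ⟨ha, hc, hd⟩
  obtain ⟨z, hz⟩ : ∃ z, N - D = z := ⟨_, rfl⟩
  obtain ⟨q, hq⟩ : ∃ q, 2 * D - N - 1 = q := ⟨_, rfl⟩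
  have hDD : D = z + 1 + q := by omega
  rw [hq] at h2
  rw [hz] at h1' ⊢
  have e0 : ∀ u : ℕ, D * u = z * u + u + q * u := by
    intro u; rw [hDD]; ring
  have e1 := e0 (U G D)
  generalize D * U G D = t1 at *
  generalize z * U G D = t2 at *
  generalize q * U G D = t3 at *
  generalize z * Lo G D = t4 at *
  omega

lemma U_le_Lo_aux (h : NoPath G) (hN : 4 ≤ Fintype.card V) :
    ∀ k D : ℕ, Fintype.card V ≤ D + k → Fintype.card V + 1 ≤ 2 * D → U G D ≤ Lo G D := by
  classical
  intro k
  induction k with
  | zero =>
    intro D hk _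
    have : U G D = 0 := by
      rw [U, card_eq_zero, filter_eq_empty_iff]
      intro x _ hx
      have := G.degree_lt_card_verts x
      omega
    omega
  | succ k ih =>
    intro D hk hD
    rcases Nat.lt_or_ge D (Fintype.card V) with hlt | hge
    swap
    · exact ih D (by omega) hD
    have hc := count h hN hD hlt.le (fun j hj => ih j (by omega) (by omega))
    by_contra hcon
    push Not at hcon
    have hE : #{y | Exc G D y} ≤ 1 := by
      rw [card_le_one]
      intro y hy y' hy'
      simp only [mem_filter, mem_univ, true_and] at hy hy'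
      exact exc_unique h hN hD hy hy'
    have hz : Fintype.card V - D ≤ #{y | Exc G D y} := by
      have h1 : (Fintype.card V - D) * (Lo G D + 1) ≤ (Fintype.card V - D) * U G D :=
        Nat.mul_le_mul_left _ hcon
      rw [mul_add, mul_one] at h1
      omega
    have hE1 : 0 < #{y | Exc G D y} := by omega
    have hDN : D + 1 = Fintype.card V := by omega
    obtain ⟨y, hy⟩ := card_pos.1 hE1
    simp only [mem_filter, mem_univ, true_and] at hy
    obtain ⟨a, b, hab, hya, hyb, ha, hb, hyD⟩ := hy
    -- every vertex other than `y` is adjacent to `y`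
    have hfull : ∀ z : V, G.degree z = D → ∀ w, w ≠ z → G.Adj z w := by
      intro z hz w hw
      have hsub : G.neighborFinset z ⊆ univ.erase z := by
        intro c hc
        rw [SimpleGraph.mem_neighborFinset] at hc
        exact mem_erase.2 ⟨hc.ne', mem_univ _⟩
      have he : G.neighborFinset z = univ.erase z := by
        apply eq_of_subset_of_card_le hsub
        rw [card_erase_of_mem (mem_univ _), card_univ,
          SimpleGraph.card_neighborFinset_eq_degree]
        omega
      rw [← SimpleGraph.mem_neighborFinset, he]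
      exact mem_erase.2 ⟨hw, mem_univ _⟩
    have honly : ∀ z : V, D ≤ G.degree z → z = y := by
      intro z hz
      by_contra hne
      have hzlt := G.degree_lt_card_verts z
      have hzD : G.degree z = D := by omega
      have haz : a ≠ z := by rintro rfl; omega
      have hza := hfull z hzD a haz
      have hyz := hfull y hyD z hne
      have := pair_nbr h hab.symm (by omega) hyb hya hyz hza.symm
      subst this
      omega
    have hU : U G D ≤ 1 := by
      rw [U, card_le_one]
      intro u hu v hv
      simp only [mem_filter, mem_univ, true_and] at hu hv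
      rw [honly u hu, honly v hv]
    have hLo : Lo G D = 0 := by omega
    rw [Lo, card_eq_zero, filter_eq_empty_iff] at hLo
    -- pigeonhole
    have hpig : ∃ x ∈ (univ.erase y).erase b, ∃ x' ∈ (univ.erase y).erase b, x ≠ x' ∧
        G.degree x = G.degree x' := by
      apply exists_ne_map_eq_of_card_lt_of_maps_to (t := Ico 2 D)
      · rw [Nat.card_Ico, card_erase_of_mem (mem_erase.2 ⟨hyb.ne', mem_univ _⟩),
          card_erase_of_mem (mem_univ _), card_univ]
        omega
      · intro x hx
        have hx : x ∈ (univ.erase y).erase b := hx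
        have hxy : x ≠ y := (mem_erase.1 (mem_erase.1 hx).2).1
        have h1 := hLo (mem_univ x)
        have h2 : ¬ D ≤ G.degree x := fun h2 => hxy (honly x h2)
        show G.degree x ∈ ((Ico 2 D : Finset ℕ) : Set ℕ)
        rw [mem_coe, mem_Ico]
        omega
    obtain ⟨x, hx, x', hx', hne, hdeg⟩ := hpig
    rw [mem_erase, mem_erase] at hx hx'
    have hyx := hfull y hyD x hx.2.1
    have hyx' := hfull y hyD x' hx'.2.1
    have h3 := (pair_le h hne hdeg hyx hyx').1
    have h1 := hLo (mem_univ x)
    have hxb : G.degree x = G.degree b := by omega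
    have h4 := (pair_le h hx.1 hxb hyx hyb).2 (by omega)
    exact hne (pair_nbr h hx'.1 (by omega) hyx' hyb hyx h4.1.symm)

/-- The key inequality: if no two vertices of equal degree are joined by a path of length three
then, for `2 D > N`, at most as many vertices have degree at least `D` as have degree at most
`N - D`. -/
lemma U_add_U (h : NoPath G) (hN : 4 ≤ Fintype.card V) {D : ℕ}
    (hD : Fintype.card V + 1 ≤ 2 * D) :
    U G D + U G (Fintype.card V + 1 - D) ≤ Fintype.card V := by
  rcases Nat.lt_or_ge (Fintype.card V) D with hlt | hge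
  · have h0 : U G D = 0 := by
      rw [U, card_eq_zero, filter_eq_empty_iff]
      intro x _ hx
      have := G.degree_lt_card_verts x
      omega
    have h1 : U G (Fintype.card V + 1 - D) ≤ Fintype.card V := by
      rw [U]; exact card_le_univ _
    omega
  · have h1 := U_le_Lo_aux h hN (Fintype.card V) D (by omega) hD
    have h2 : Lo G D + U G (Fintype.card V + 1 - D) = Fintype.card V := by
      have h3 := card_filter_add_card_filter_not (s := (univ : Finset V))
        (fun x => G.degree x + D ≤ Fintype.card V)
      have e : univ.filter (fun x => Fintype.card V + 1 - D ≤ G.degree x) =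
          univ.filter (fun x => ¬ (G.degree x + D ≤ Fintype.card V)) := by
        ext x
        simp only [mem_filter, mem_univ, true_and, not_le]
        omega
      rw [Lo, U, e, h3, card_univ]
    omega

/-- A graph on `N ≥ 4` vertices in which no two vertices of equal degree are joined by a path of
length three has at most `N ^ 2 / 4` edges. -/
theorem edges_le (h : NoPath G) (hN : 4 ≤ Fintype.card V) :
    4 * #G.edgeFinset ≤ Fintype.card V ^ 2 := by
  classical
  set N := Fintype.card V with hNdef
  have hsum : ∑ v : V, G.degree v = ∑ j ∈ range N, U G (j + 1) := by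
    have h1 : ∀ y : V, G.degree y = #{j ∈ range N | j + 1 ≤ G.degree y} := by
      intro y
      have hlt := G.degree_lt_card_verts y
      have : {j ∈ range N | j + 1 ≤ G.degree y} = range (G.degree y) := by
        ext j; simp only [mem_filter, mem_range]; omega
      rw [this, card_range]
    rw [sum_congr rfl (fun y _ => h1 y)]
    simp only [card_filter, U]
    rw [sum_comm]
  have hrefl : ∑ j ∈ range N, U G (j + 1) = ∑ j ∈ range N, U G (N - j) := by
    rw [← sum_range_reflect]
    apply sum_congr rfl
    intro j hj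
    rw [mem_range] at hj
    congr 1
    omega
  have hkey : ∀ j ∈ range N, U G (j + 1) + U G (N - j) ≤ N := by
    intro j hj
    rw [mem_range] at hj
    rcases Nat.lt_or_ge (2 * (j + 1)) (N + 1) with hlt | hge
    · have := U_add_U h hN (D := N - j) (by omega)
      have e : Fintype.card V + 1 - (N - j) = j + 1 := by omega
      rw [e] at this
      omega
    · have := U_add_U h hN (D := j + 1) (by omega)
      have e : Fintype.card V + 1 - (j + 1) = N - j := by omega
      rw [e] at this
      omega
  have h2 : ∑ j ∈ range N, (U G (j + 1) + U G (N - j)) ≤ ∑ j ∈ range N, N := sum_le_sum hkey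
  rw [sum_add_distrib, sum_const, card_range, smul_eq_mul, ← hrefl, ← hsum,
    SimpleGraph.sum_degrees_eq_twice_card_edges] at h2
  nlinarith

/-- **Erdős–Hajnal question.** For every `n ≥ 2`, every graph with `2 n + 1` vertices and
`n ^ 2 + n + 1` (or more) edges contains two distinct vertices of equal degree that are joined
by a path of length three. -/
theorem result : ∀ n : ℕ, 2 ≤ n → ∀ (V : Type) [Fintype V] [DecidableEq V] (G : SimpleGraph V)
    [DecidableRel G.Adj], Fintype.card V = 2 * n + 1 → n ^ 2 + n + 1 ≤ G.edgeFinset.card →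
    ∃ x₁ y₁ y₂ x₂ : V, x₁ ≠ y₁ ∧ x₁ ≠ y₂ ∧ x₁ ≠ x₂ ∧ y₁ ≠ y₂ ∧ y₁ ≠ x₂ ∧ y₂ ≠ x₂ ∧
      G.degree x₁ = G.degree x₂ ∧ G.Adj x₁ y₁ ∧ G.Adj y₁ y₂ ∧ G.Adj y₂ x₂ := by
  intro n hn V _ _ G _ hV hE
  by_contra hcon
  have h : NoPath G := by
    intro x₁ y₁ y₂ x₂ h1 h2 h3 h4 h5 h6 h7
    exact hcon ⟨x₁, y₁, y₂, x₂, h5.ne, h3, h1, h6.ne, h2, h7.ne, h4, h5, h6, h7⟩
  have := edges_le h (by omega)
  rw [hV] at this
  nlinarith

end Pool.Agent.Results.MP_b875bc_co.EqualDegreePath
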